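import Pool.Agent.Helper53_Closed.Poly

/-!
# MP_dd6baa_lc: CLOSED for general semialgebraic sets is in `∀ℝ`
-/

namespace Pool.Agent.Results.MP_dd6baa_lc.ClosedInForallR

open Pool.Agent.Helper53_Closed

/-- Deciding whether a semialgebraic set, given by an arbitrary quantifier-free formula, is closed
is in `∀ℝ`: it reduces in polynomial time to the universal theory of the reals. -/
theorem result : InForallR closedProblem := closed_inForallR

end Pool.Agent.Results.MP_dd6baa_lc.ClosedInForallR
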